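import Pool.Agent.Q252.UB.Main

/-! The unit bar visibility number of complete bipartite graphs. -/

namespace Pool.Agent.Results.MP_f867b0_co.QuarterLowerBound

open Pool.Agent.Q252.UB

/-- (1) `ub(K_{m,n})` is attained and is at least `m / 4` for all `m, n ≥ 1`.
(2) With the known asymptotic upper bound this is the full answer to the question. -/
theorem result :
    (∀ m n : ℕ, 1 ≤ m → 1 ≤ n →
      HasRep (completeBipartiteGraph (Fin m) (Fin n))
        (ub (completeBipartiteGraph (Fin m) (Fin n))) ∧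
      (m : ℝ) / 4 ≤ ub (completeBipartiteGraph (Fin m) (Fin n))) ∧
    ((∀ ε : ℝ, 0 < ε → ∃ M : ℕ, ∀ m n : ℕ, M ≤ m → 2 ≤ n → n ≤ m →
        (ub (completeBipartiteGraph (Fin m) (Fin n)) : ℝ) ≤ m / 4 + ε * m) →
      ∀ ε : ℝ, 0 < ε → ∃ M : ℕ, ∀ m n : ℕ, M ≤ m → 2 ≤ n → n ≤ m →
        |(ub (completeBipartiteGraph (Fin m) (Fin n)) : ℝ) - m / 4| ≤ ε * m) := by
  have h1 : ∀ m n : ℕ, 1 ≤ n → (m : ℝ) / 4 ≤ ub (completeBipartiteGraph (Fin m) (Fin n)) := by
    intro m n hn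
    have h2 := le_of_hasRep hn (hasRep_ub m n)
    have h3 : (m : ℝ) ≤ 4 * ub (completeBipartiteGraph (Fin m) (Fin n)) := by exact_mod_cast h2
    linarith
  refine ⟨fun m n _ hn => ⟨hasRep_ub m n, h1 m n hn⟩, fun hU ε hε => ?_⟩
  obtain ⟨M, hM⟩ := hU ε hε
  refine ⟨M, fun m n hm hn hnm => ?_⟩
  have h2 := hM m n hm hn hnm
  have h3 := h1 m n (by omega)
  have h4 : 0 ≤ ε * m := by positivity
  rw [abs_le]
  constructor <;> linarith

end Pool.Agent.Results.MP_f867b0_co.QuarterLowerBound
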